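import Pool.Agent.Helper321.VH.Main2

set_option autoImplicit false

namespace Pool.Agent.Results.MP_93ce61_al.LocallyRich

universe u v

/-- `H` is an infinite group satisfying at least one of the following:
(a) `H` has an infinite normal subgroup that is solvable;
(b) `H` has an infinite normal subgroup `N` that is an FC-group (every conjugacy class of `N`
    is finite);
(c) `H` carries a Hausdorff group topology that is not discrete;
(d) `H` is residually finite;
(e) `H` is linear over a field, of some finite degree `m`;
(f) `H` is equationally Noetherian in one variable, with constants from `H`: every system `S` of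
    one-variable equations over `H` (words whose letters are the variable `none` and the constants
    `some a`) has the same solutions as some finite subsystem `T`;
(g) `H` is locally soluble: every finitely generated subgroup is solvable;
(h) `H` is locally finite and has an infinite normal subgroup that is locally soluble. -/
def Rich (H : Type u) [Group H] : Prop :=
  Infinite H ∧
    ((∃ N : Subgroup H, N.Normal ∧ Infinite N ∧ Group.IsSolvable N) ∨
     (∃ N : Subgroup H, N.Normal ∧ Infinite N ∧
        ∀ x : N, (Set.range fun y : N => y * x * y⁻¹).Finite) ∨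
     (∃ t : TopologicalSpace H, @IsTopologicalGroup H t _ ∧ @T2Space H t ∧
        ¬ @DiscreteTopology H t) ∨
     (∀ x : H, x ≠ 1 → ∃ N : Subgroup H, N.Normal ∧ N.FiniteIndex ∧ x ∉ N) ∨
     (∃ (F : Type v) (_ : Field F) (m : ℕ) (ρ : H →* Matrix.GeneralLinearGroup (Fin m) F),
        Function.Injective ρ) ∨
     (∀ S : Set (FreeGroup (Option H)), ∃ T : Set (FreeGroup (Option H)), T ⊆ S ∧ T.Finite ∧
        ∀ x : H, (∀ v ∈ T, FreeGroup.lift (fun o : Option H => o.elim x id) v = 1) →
          ∀ v ∈ S, FreeGroup.lift (fun o : Option H => o.elim x id) v = 1) ∨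
     (∀ S : Set H, S.Finite → Group.IsSolvable (Subgroup.closure S)) ∨
     ((∀ S : Set H, S.Finite → Finite (Subgroup.closure S)) ∧
        ∃ N : Subgroup H, N.Normal ∧ Infinite N ∧
          ∀ S : Set H, S.Finite → S ⊆ N → Group.IsSolvable (Subgroup.closure S)))

/-- For every word `w` and every group `G` in which each finite subset lies in a rich subgroup,
`G` belongs to the class `V(w^#)` if and only if `w = 1` is a law of `G`. -/
theorem result (n : ℕ) (w : FreeGroup (Fin n)) (G : Type u) [Group G]
    (hG : ∀ S : Set G, S.Finite → ∃ H : Subgroup G, S ⊆ (H : Set G) ∧ Rich.{u, v} H) :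
    (∀ S : Fin n → Set G, (∀ i, (S i).Infinite) →
        ∃ s : Fin n → G, (∀ i, s i ∈ S i) ∧
          ∀ g : Fin n → ↥(Subgroup.closure (Set.range s)), FreeGroup.lift g w = 1) ↔
      ∀ g : Fin n → G, FreeGroup.lift g w = 1 := by
  constructor
  · intro hs
    refine Pool.Agent.Helper321.VH.main2 w ?_ hG
    intro X hX
    obtain ⟨s, hsX, hlaw⟩ := hs X hX
    refine ⟨s, hsX, ?_⟩
    set K := Subgroup.closure (Set.range s) with hK
    have h := hlaw (fun i => ⟨s i, Subgroup.subset_closure ⟨i, rfl⟩⟩)
    have h1 : K.subtype (FreeGroup.lift
        (fun i => (⟨s i, Subgroup.subset_closure ⟨i, rfl⟩⟩ : K)) w) = FreeGroup.lift s w := by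
      have : K.subtype.comp (FreeGroup.lift
          (fun i => (⟨s i, Subgroup.subset_closure ⟨i, rfl⟩⟩ : K))) = FreeGroup.lift s := by
        apply FreeGroup.ext_hom
        intro i; simp
      rw [← this]; rfl
    rw [← h1, h, map_one]
  · intro h S hS
    choose s hs using fun i => (hS i).nonempty
    refine ⟨s, hs, fun g => ?_⟩
    have h1 : (Subgroup.closure (Set.range s)).subtype (FreeGroup.lift g w) =
        FreeGroup.lift (fun i => (g i : G)) w := by
      have : (Subgroup.closure (Set.range s)).subtype.comp (FreeGroup.lift g) =
          FreeGroup.lift (fun i => (g i : G)) := by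
        apply FreeGroup.ext_hom
        intro i; simp
      rw [← this]; rfl
    apply Subtype.ext
    exact h1.trans (h _)

end Pool.Agent.Results.MP_93ce61_al.LocallyRich
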