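import Pool.Agent.Helper321.VH.Main2

set_option autoImplicit false

namespace Pool.Agent.Results.MP_93ce61_al.LocallySoluble

/-- For every word `w` and every infinite locally soluble group `G` (every finitely generated
subgroup is solvable), `G` belongs to the class `V(w^#)` if and only if `w = 1` is a law
of `G`. -/
theorem result (n : ℕ) (w : FreeGroup (Fin n)) (G : Type*) [Group G] [Infinite G]
    (hG : ∀ S : Set G, S.Finite → Group.IsSolvable (Subgroup.closure S)) :
    (∀ S : Fin n → Set G, (∀ i, (S i).Infinite) →
        ∃ s : Fin n → G, (∀ i, s i ∈ S i) ∧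
          ∀ g : Fin n → ↥(Subgroup.closure (Set.range s)), FreeGroup.lift g w = 1) ↔
      ∀ g : Fin n → G, FreeGroup.lift g w = 1 := by
  constructor
  · intro hs
    refine Pool.Agent.Helper321.VH.locsol_case w ?_ inferInstance hG
    intro X hX
    obtain ⟨s, hsX, hlaw⟩ := hs X hX
    refine ⟨s, hsX, ?_⟩
    set K := Subgroup.closure (Set.range s) with hK
    have h := hlaw (fun i => ⟨s i, Subgroup.subset_closure ⟨i, rfl⟩⟩)
    have h1 : K.subtype (FreeGroup.lift
        (fun i => (⟨s i, Subgroup.subset_closure ⟨i, rfl⟩⟩ : K)) w) = FreeGroup.lift s w := by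
      have : K.subtype.comp (FreeGroup.lift
          (fun i => (⟨s i, Subgroup.subset_closure ⟨i, rfl⟩⟩ : K))) = FreeGroup.lift s := by
        apply FreeGroup.ext_hom
        intro i; simp
      rw [← this]; rfl
    rw [← h1, h, map_one]
  · intro h S hS
    choose s hs using fun i => (hS i).nonempty
    refine ⟨s, hs, fun g => ?_⟩
    have h1 : (Subgroup.closure (Set.range s)).subtype (FreeGroup.lift g w) =
        FreeGroup.lift (fun i => (g i : G)) w := by
      have : (Subgroup.closure (Set.range s)).subtype.comp (FreeGroup.lift g) =
          FreeGroup.lift (fun i => (g i : G)) := by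
        apply FreeGroup.ext_hom
        intro i; simp
      rw [← this]; rfl
    apply Subtype.ext
    exact h1.trans (h _)

end Pool.Agent.Results.MP_93ce61_al.LocallySoluble
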